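import Pool.Agent.Q71.MK.Final

/-!
# MP_4e48d5_nt: the metric lower bound for the van der Corput–Kronecker sequence

`MK.disc α N` is the discrepancy `D_N(α)` of the first `N` points of `z_n = (x_n, {n α})`, where
`x_n` is the van der Corput sequence in base two (`Pool/Agent/Q71/MK/Disc.lean`).

For every nondecreasing positive `h` with `∑ 1 / (k h(k)) = ∞`, almost every real `α` satisfies
`D_N(α) ≥ (log N)² h(log N) / N` for infinitely many `N`. The case `h = 1` answers Q1 in the
affirmative.

Proof. For almost every `α` there are infinitely many numbers `q = 2^i u` with `u` odd, `u < 2^i`,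
and `u ‖q α‖ < 1 / (4 K_i)`, where `K_i` is about `18 i² h(3 i)`: second moment method for the
fractions with these denominators (the sum of `1 / (u K_i)` diverges) and the zero–one law of
Gallagher. The points `z_n` with `n < N = 2^i u K_i` whose first coordinate is less than `2^(-i)` have
`n = 2^i m`, `m < u K_i`, and `u n α` is within `1 / 4` of an integer, so the box
`[0, 2^(-i)) × [1 / (4 u), 3 / (4 u))` contains none of the first `N` points, while `N` times its area
is `K_i / 2`.
-/

namespace Pool.Agent.Results.MP_4e48d5_nt.MetricLowerBound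

/-- For every nondecreasing positive `h` with `∑ 1 / (k h(k)) = ∞` and almost every real `α`,
`D_N(α) ≥ (log N)² h(log N) / N` for infinitely many `N`. -/
theorem result (h : ℝ → ℝ) (hmono : Monotone h) (hpos : ∀ x, 0 < h x)
    (hdiv : ¬ Summable fun k : ℕ => 1 / ((k : ℝ) * h k)) :
    ∀ᵐ α : ℝ, ∀ N₀ : ℕ, ∃ N : ℕ, N₀ ≤ N ∧
      Real.log N ^ 2 * h (Real.log N) / N ≤ MK.disc α N :=
  MK.main hmono hpos hdiv

end Pool.Agent.Results.MP_4e48d5_nt.MetricLowerBound
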